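import Mathlib
import Pool.Agent.Helper946.HY.Itors
import Pool.Agent.Helper294.HallM.SysNoe

set_option autoImplicit false
set_option linter.unusedSectionVars false
set_option linter.unusedVariables false

namespace Pool.Agent.Helper946.HY

open Module Pool.Agent.Helper946.HC

theorem t1_core {K G A Q : Type} [DivisionRing K] [Group G] [AddCommGroup A] [Module K A]
    [DistribMulAction G A] [Group Q] {ρ : G →* Q} (hQ : PC Q) (hρ : Function.Surjective ρ)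
    (hS : Sys K G A Q ρ) {r : ℕ} {ε : Multiplicative (Fin r → ℤ) →* Q} (hP : Plinth Q r ε)
    (htors : ∀ w : A, Tors (K := K) ρ ε w)
    (hno : ∀ W : Submodule K A, FiniteDimensional K W → St (ε.range.comap ρ) W → W = ⊥) :
    ∃ 𝓛 : Set (Subgroup Q), 𝓛.Finite ∧ (∀ L ∈ 𝓛, ε.range ≤ L ∧ L.index = 0) ∧
      ∀ g : G, (∃ W : Submodule K A, W ≠ ⊥ ∧ FiniteDimensional K W ∧ Stable (ac g : A ≃+ A) W) →
        ∃ L ∈ 𝓛, ∃ n : ℕ, 0 < n ∧ ∃ q : Q, q⁻¹ * (ρ g) ^ n * q ∈ L := by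
  obtain ⟨Ls, h1, h2, h3⟩ := Pool.Agent.Helper946.S4.itors hS.semi hS.scal
    (fun v => hρ _) hP (Pool.Agent.Helper294.HallM.sys_noe hQ hρ hS) htors hno
  refine ⟨Ls, h1, h2, ?_⟩
  rintro g ⟨W, hW0, hWfd, hWst⟩
  obtain ⟨n, hn, q, L, hL, hq⟩ := h3 g W hW0 hWfd hWst
  exact ⟨L, hL, n, hn, q, hq⟩

end Pool.Agent.Helper946.HY
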